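import Mathlib

open Filter Topology Metric Set

namespace Pool.Agent.Results.MP_1cfa3b_gt.NoOnePoint

/-- `σ` is a geodesic bicombing: it is continuous and each `σ (x, y, ·)` is a constant-speed
geodesic from `x` to `y`. -/
def IsBicombing {X : Type*} [MetricSpace X] (σ : X × X × unitInterval → X) : Prop :=
  Continuous σ ∧ ∀ x y : X, σ (x, y, 0) = x ∧ σ (x, y, 1) = y ∧
    ∀ s t : unitInterval, dist (σ (x, y, s)) (σ (x, y, t)) = |(s : ℝ) - t| * dist x y

/-- Consistency of a bicombing. -/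
def IsConsistent {X : Type*} (σ : X × X × unitInterval → X) : Prop :=
  ∀ (x y : X) (s t : unitInterval), s < t →
    Set.range (fun u => σ (σ (x, y, s), σ (x, y, t), u)) = (fun u => σ (x, y, u)) '' Set.Icc s t

/-- The conical inequality. -/
def IsConical {X : Type*} [MetricSpace X] (σ : X × X × unitInterval → X) : Prop :=
  ∀ (x y x' y' : X) (t : unitInterval),
    dist (σ (x, y, t)) (σ (x', y', t)) ≤ (1 - (t : ℝ)) * dist x x' + t * dist y y'

/-- `ξ`, restricted to `[0, ∞)`, is a `σ`-ray. -/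
def IsRay {X : Type*} [MetricSpace X] (σ : X × X × unitInterval → X) (ξ : ℝ → X) : Prop :=
  (∀ s t : ℝ, 0 ≤ s → 0 ≤ t → dist (ξ s) (ξ t) = |s - t|) ∧
    ∀ s : ℝ, 0 < s → ∀ u : unitInterval, ξ (u * s) = σ (ξ 0, ξ s, u)

/-- Two rays are equivalent if they stay at bounded distance. -/
def Asymptotic {X : Type*} [MetricSpace X] (ξ η : ℝ → X) : Prop :=
  ∃ C : ℝ, ∀ t : ℝ, 0 ≤ t → dist (ξ t) (η t) ≤ C

theorem sub {X : Type*} [MetricSpace X] {σ : X × X × unitInterval → X} (h1 : IsBicombing σ)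
    (h2 : IsConsistent σ) (x y : X) (b u : unitInterval) (hb : 0 < b) :
    σ (x, σ (x, y, b), u) = σ (x, y, u * b) := by
  have h3 := h2 x y 0 b hb
  rw [(h1.2 x y).1] at h3
  obtain ⟨c, -, hc⟩ := h3 ▸ mem_range_self (f := fun u => σ (x, σ (x, y, b), u)) u
  simp only at hc
  have a1 := (h1.2 x y).2.2 0 c
  have a2 := (h1.2 x (σ (x, y, b))).2.2 0 u
  have a3 := (h1.2 x y).2.2 0 b
  rw [(h1.2 x _).1] at a1 a2 a3
  rw [← hc, a1, a3] at a2
  rw [← hc, ← dist_eq_zero, (h1.2 x y).2.2]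
  simp only [Icc.coe_zero, zero_sub, abs_neg, abs_of_nonneg c.2.1, abs_of_nonneg u.2.1,
    abs_of_nonneg b.2.1] at a2
  rw [← abs_of_nonneg (dist_nonneg (x := x) (y := y)), ← abs_mul, abs_eq_zero, Icc.coe_mul]
  linarith

theorem limit_ray {X : Type*} [MetricSpace X] [ProperSpace X] {σ : X × X × unitInterval → X}
    (h1 : IsBicombing σ) (h2 : IsConsistent σ) (o : X) (x : ℕ → X) (hx : ∀ n : ℕ, n < dist o (x n)) :
    ∃ ξ, IsRay σ ξ ∧ ∀ t, 0 ≤ t → Tendsto (fun n => σ (o, x n, projIcc 0 1 zero_le_one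
      (t / dist o (x n)))) (hyperfilter ℕ) (𝓝 (ξ t)) := by
  let p : ℝ → ℕ → X := fun t n => σ (o, x n, projIcc 0 1 zero_le_one (t / dist o (x n)))
  have d0 : ∀ n, 0 < dist o (x n) := fun n => (Nat.cast_nonneg n).trans_lt (hx n)
  have ev : ∀ t : ℝ, ∀ᶠ n in hyperfilter ℕ, t ≤ dist o (x n) := fun t => by
    refine Nat.hyperfilter_le_atTop ?_
    filter_upwards [tendsto_natCast_atTop_atTop.eventually_ge_atTop t] with n hn using hn.trans (hx n).le
  have pr : ∀ t n, 0 ≤ t → t ≤ dist o (x n) →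
      (projIcc (0 : ℝ) 1 zero_le_one (t / dist o (x n)) : ℝ) = t / dist o (x n) := fun t n a b => by
    rw [projIcc_of_mem _ ⟨div_nonneg a (d0 n).le, (div_le_one (d0 n)).2 b⟩]
  have dd : ∀ s t, 0 ≤ s → 0 ≤ t → ∀ᶠ n in hyperfilter ℕ, dist (p s n) (p t n) = |s - t| := by
    intro s t hs ht
    filter_upwards [ev s, ev t] with n a b
    rw [(h1.2 _ _).2.2, pr s n hs a, pr t n ht b, ← sub_div, abs_div, abs_of_pos (d0 n),
      div_mul_cancel₀ _ (d0 n).ne']
  have p0 : ∀ n, p 0 n = o := fun n => by simpa [p] using (h1.2 o (x n)).1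
  have ex : ∀ t : ℝ, ∃ z, 0 ≤ t → Tendsto (p t) (hyperfilter ℕ) (𝓝 z) := fun t => by
    by_cases ht : 0 ≤ t
    · obtain ⟨z, -, hz⟩ := (isCompact_closedBall o t).ultrafilter_le_nhds ((hyperfilter ℕ).map (p t))
        (by
          rw [le_principal_iff]
          change ∀ᶠ n in hyperfilter ℕ, p t n ∈ closedBall o t
          filter_upwards [dd t 0 ht le_rfl] with n hn
          rw [mem_closedBall, ← p0 n, hn, sub_zero, abs_of_nonneg ht])
      exact ⟨z, fun _ => hz⟩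
    · exact ⟨o, fun h => absurd h ht⟩
  choose ξ hξ using ex
  have x0 : ξ 0 = o := tendsto_nhds_unique (hξ 0 le_rfl) (by simpa [funext p0] using tendsto_const_nhds)
  refine ⟨ξ, ⟨fun s t hs ht => tendsto_nhds_unique ((hξ s hs).dist (hξ t ht))
    (tendsto_const_nhds.congr' ((dd s t hs ht).mono fun n h => h.symm)), fun s hs u => ?_⟩, hξ⟩
  have hus : 0 ≤ (u : ℝ) * s := mul_nonneg u.2.1 hs.le
  refine tendsto_nhds_unique (hξ _ hus) ?_
  rw [x0]
  refine ((h1.1.tendsto _).comp (tendsto_const_nhds.prodMk_nhds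
    ((hξ s hs.le).prodMk_nhds tendsto_const_nhds))).congr' ?_
  filter_upwards [ev s] with n hn
  have a1 := pr s n hs.le hn
  have a2 := pr (u * s) n hus ((mul_le_of_le_one_left hs.le u.2.2).trans hn)
  simp only [Function.comp, p]
  rw [sub h1 h2 _ _ _ _ (show (0 : ℝ) < _ by rw [a1]; exact div_pos hs (d0 n))]
  congr 3
  apply Subtype.ext
  rw [Icc.coe_mul, a1, a2, mul_div_assoc]

theorem result (X : Type*) [MetricSpace X] [ProperSpace X] (σ : X × X × unitInterval → X)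
    (h1 : IsBicombing σ) (h2 : IsConsistent σ) (_h3 : IsConical σ)
    (G : Type*) [Group G] [MulAction G X] [IsIsometricSMul G X]
    [CompactSpace (MulAction.orbitRel.Quotient G X)] :
    ¬ ∃ ξ, IsRay σ ξ ∧ ∀ η, IsRay σ η → Asymptotic ξ η := by
  rintro ⟨ρ, hρ, hall⟩
  set o := ρ 0
  obtain ⟨c, hc⟩ : ∃ c : ℕ, ∀ y : X, ∃ g : G, dist o (g • y) < c := by
    obtain ⟨c, hc⟩ := isCompact_univ.elim_directed_cover
      (fun n : ℕ => (Quotient.mk (MulAction.orbitRel G X)) '' ball o n)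
      (fun n => isOpenMap_quotient_mk'_mul _ isOpen_ball)
      (fun q _ => by
        obtain ⟨y, rfl⟩ := Quotient.exists_rep q
        obtain ⟨n, hn⟩ := exists_nat_gt (dist y o)
        exact mem_iUnion.2 ⟨n, y, hn, rfl⟩)
      (Monotone.directed_le fun a b h => image_mono (ball_subset_ball (by exact_mod_cast h)))
    refine ⟨c, fun y => ?_⟩
    obtain ⟨z, hz, hz2⟩ := hc (mem_univ (Quotient.mk _ y))
    obtain ⟨g, hg⟩ := Quotient.exact hz2
    exact ⟨g, by rw [dist_comm]; simpa [← hg] using hz⟩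
  choose g hg using fun n : ℕ => hc (ρ (n + c))
  let x : ℕ → X := fun n => g n • ρ 0
  let y : ℕ → X := fun n => g n • ρ (2 * (n + c))
  have nn : ∀ n : ℕ, (0 : ℝ) ≤ n + c := fun n => by positivity
  have dx : ∀ n, dist (g n • ρ (n + c)) (x n) = n + c := fun n => by
    rw [dist_smul, hρ.1 _ _ (nn n) le_rfl, sub_zero, abs_of_nonneg (nn n)]
  have dy : ∀ n, dist (g n • ρ (n + c)) (y n) = n + c := fun n => by
    rw [dist_smul, hρ.1 _ _ (nn n) (by positivity), abs_of_nonpos (by linarith [nn n])]; ring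
  have dxy : ∀ n, dist (x n) (y n) = 2 * (n + c) := fun n => by
    rw [dist_smul, hρ.1 _ _ le_rfl (by positivity), abs_of_nonpos (by linarith [nn n])]; ring
  have key : ∀ z : ℕ → X, (∀ n, dist (g n • ρ (n + c)) (z n) = n + c) → (∀ n : ℕ, n < dist o (z n)) ∧
      ∀ (t : ℝ) (n : ℕ), 0 ≤ t → t ≤ n → dist (σ (o, z n, projIcc 0 1 zero_le_one (t / dist o (z n))))
        (z n) ≤ n + 2 * c - t := by
    intro z hz
    have a1 : ∀ n : ℕ, n < dist o (z n) := fun n => by
      linarith [dist_triangle_left (g n • ρ (n + c)) (z n) o, hz n, hg n]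
    refine ⟨a1, fun t n ht hn => ?_⟩
    have d0 : 0 < dist o (z n) := (Nat.cast_nonneg n).trans_lt (a1 n)
    have a2 := (h1.2 o (z n)).2.2 (projIcc 0 1 zero_le_one (t / dist o (z n))) 1
    have a3 : t / dist o (z n) ≤ 1 := (div_le_one d0).2 (hn.trans (a1 n).le)
    rw [(h1.2 o (z n)).2.1, projIcc_of_mem _ ⟨div_nonneg ht d0.le, a3⟩] at a2
    rw [projIcc_of_mem _ ⟨div_nonneg ht d0.le, a3⟩, a2, Icc.coe_one, abs_of_nonpos (by simpa using a3),
      neg_sub, sub_mul, div_mul_cancel₀ _ d0.ne']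
    linarith [dist_triangle o (g n • ρ (n + c)) (z n), hz n, hg n]
  obtain ⟨ξ, hξ, tξ⟩ := limit_ray h1 h2 o x (key x dx).1
  obtain ⟨η, hη, tη⟩ := limit_ray h1 h2 o y (key y dy).1
  obtain ⟨C, hC⟩ := hall ξ hξ
  obtain ⟨D, hD⟩ := hall η hη
  set t : ℝ := |C + D| + c + 1
  have ht : 0 ≤ t := by positivity
  have b1 : 2 * (t - c) ≤ dist (ξ t) (η t) := by
    refine ge_of_tendsto ((tξ t ht).dist (tη t ht)) (Nat.hyperfilter_le_atTop ?_)
    filter_upwards [tendsto_natCast_atTop_atTop.eventually_ge_atTop t] with n hn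
    have a1 := (key x dx).2 t n ht hn
    have a2 := (key y dy).2 t n ht hn
    have a3 := dist_triangle4 (x n) (σ (o, x n, projIcc 0 1 zero_le_one (t / dist o (x n))))
      (σ (o, y n, projIcc 0 1 zero_le_one (t / dist o (y n)))) (y n)
    rw [dxy, dist_comm (x n)] at a3
    linarith
  linarith [dist_triangle_left (ξ t) (η t) (ρ t), hC t ht, hD t ht, le_abs_self (C + D),
    abs_nonneg (C + D)]

end Pool.Agent.Results.MP_1cfa3b_gt.NoOnePoint
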